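import Pool.Agent.U536.CF.TI
import Pool.Agent.Results.MP_52423f_nt.AlmostAllTuplesH14

/-!
# The `p`-adic closures of the groups generated by combinations of rational points whose coefficients are near integers
with large common factors with the values of multiplicative functions

Let `A` be a simple abelian variety over `ℚ` of dimension `n`, `D = End⁰(A)`, `K` a commutative subfield of `D`, `p` any
prime number, `e_1, …, e_N ∈ A(ℚ)` independent, `s` the dimension over `K` of `D ⟨e_1, …, e_N⟩`, and `(m - 1) s < N`. If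
`e_1, …, e_N` is a basis of `A(ℚ)` modulo torsion, this is the case for all `m ≤ [K : ℚ]`; for example for all `m ≤ n` if
`A` is of `GL_2`-type. Let `F_ij`, `i ≤ m`, `j ≤ N`, be positive multiplicative functions of at most polynomial growth
with `F_ij(q) ≤ M q` for the large primes `q`, with different values at different large primes; for example Euler's
function or the sum of the divisors. For all `b < 1`, `0 ≤ c < 2 b - 1` and all large `X`, the following holds for all but
`X ^ (m N) exp (-(log X)^c)` of the `m × N` matrices `u` of positive integers `≤ X`. For EVERY matrix `w` of integers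
`w_ij ≥ exp ((log X)^b)` such that `gcd(w_ij, F_ij(u_ij)) ≥ w_i'j'^ρ` for all indices, for ALL integers `a_ij ≠ 0` and
`h_ij` which are bounded in absolute value by `w_l ^ η` for some `l`, and for all torsion points `t_i`, the closure in
`A(ℚ_p)` of the group generated by the `m` points `x_i = ∑_j (a_ij w_ij + h_ij) e_j + t_i` is isomorphic to `ℤ_p ^ m` modulo
finite torsion. The numbers `ρ < 1` and `η > 0` depend only on `m`, `N`, `s`, and the bound for `X` does not depend on `A`,
`p`, `n`, `K` and the `e_j`. The matrices `w` include all matrices of large divisors `w_ij` of the `F_ij(u_ij)` of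
comparable size.

Proof. But for few exceptional `u ≤ X`, the number of `u` with `g ∣ F(u)` is at most `X τ_J(g) / g` up to a factor
`exp ((log X)^r)`, `J = (log X)^a`, `a < r < b`, for all `g`: write `u = k' v` with `v` squarefree and composed of primes
larger than `X^(1/J)`, `k' ≤ exp (4 (log X)^a)`. The matrices near exceptional matrices have a power saving, and so have
the matrices of the large divisors of their entries; the inequality `τ_J^q ≤ τ_K` for `K ≥ J^q` with Hölder's inequality
bounds the sum of `∏ τ_J(g_ij) / g_ij` over these. The file `AlmostAllTuplesH14` of the starting library bounds the number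
of the exceptional matrices with entries `≤ H` by `m (2 H + 1) ^ ((m - 1) (N + s))`.
-/

set_option autoImplicit false

namespace Pool.Agent.Results.MP_52423f_nt.CommonFactors

open Pool.Agent.N733.TG (LM lm_totient lm_sigma)
open Pool.Agent.U536.CF (CommonI common_near_I commonI_of_dvd)
open Pool.Agent.E8helper40.PC Pool.Agent.E8helper14.PA

/-- the number of the exceptional matrices in the cube -/
lemma count {p : ℕ} [Fact p.Prime] {n : ℕ} (A : SimpleAbelianVariety p n) (K : Subfield A.End)
    (hK : Commutative A K) {m N s : ℕ} (hm : 1 ≤ m) (hs : (m - 1) * s < N) (e : Fin N → A.Pts) (he : Independent A e)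
    (hsp : spanDim A K e ≤ s) (T : ℕ) (hT : 1 ≤ T) :
    ({α : Fin m × Fin N → ℤ | (∀ i, |α i| ≤ (T : ℤ)) ∧
      α ∈ {α : Fin m × Fin N → ℤ | ¬ GoodTuple A e (fun i j => α (i, j))}}.ncard : ℝ) ≤
      (m * 3 ^ (m * N) : ℕ) * (T : ℝ) ^ ((Fintype.card (Fin m × Fin N) : ℝ) - ((N - (m - 1) * s : ℕ) : ℝ)) := by
  classical
  have h1 := (AlmostAllTuplesH14.result A K hK e he).2.1 m T
  have h2 : {α : Fin m × Fin N → ℤ | (∀ i, |α i| ≤ (T : ℤ)) ∧
      α ∈ {α : Fin m × Fin N → ℤ | ¬ GoodTuple A e (fun i j => α (i, j))}}.ncard ≤ failures A e m T := by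
    unfold failures
    rw [← Set.ncard_coe_finset]
    refine Set.ncard_le_ncard_of_injOn (fun α i j => α (i, j)) ?_ ?_ (Finset.finite_toSet _)
    · rintro α ⟨h3, h4⟩
      rw [Finset.mem_coe, Finset.mem_filter]
      refine ⟨?_, h4⟩
      unfold box
      rw [Fintype.mem_piFinset]
      intro i
      rw [Fintype.mem_piFinset]
      intro j
      rw [Finset.mem_Icc]
      exact abs_le.1 (h3 (i, j))
    · intro α _ β _ hαβ
      funext i
      exact congrFun (congrFun hαβ i.1) i.2
  have h3 : (m - 1) * (N + spanDim A K e) ≤ m * N - (N - (m - 1) * s) := by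
    obtain ⟨a, rfl⟩ : ∃ a, m = a + 1 := ⟨m - 1, by omega⟩
    rw [Nat.add_sub_cancel] at hs ⊢
    have h4 : a * spanDim A K e ≤ a * s := Nat.mul_le_mul le_rfl hsp
    have h5 : (a + 1) * N = a * N + N := by ring
    rw [Nat.mul_add, h5]
    omega
  have h4 : N - (m - 1) * s ≤ m * N := (Nat.sub_le _ _).trans (Nat.le_mul_of_pos_left N (by omega))
  have hT1 : (1 : ℝ) ≤ T := by exact_mod_cast hT
  have h5 : failures A e m T ≤ m * 3 ^ (m * N) * T ^ (m * N - (N - (m - 1) * s)) := by
    calc failures A e m T ≤ m * (2 * T + 1) ^ ((m - 1) * (N + spanDim A K e)) := h1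
      _ ≤ m * (2 * T + 1) ^ (m * N - (N - (m - 1) * s)) :=
          Nat.mul_le_mul le_rfl (Nat.pow_le_pow_right (by omega) h3)
      _ ≤ m * (3 * T) ^ (m * N - (N - (m - 1) * s)) :=
          Nat.mul_le_mul le_rfl (Nat.pow_le_pow_left (by omega) _)
      _ ≤ m * (3 ^ (m * N) * T ^ (m * N - (N - (m - 1) * s))) := by
          rw [mul_pow]
          exact Nat.mul_le_mul le_rfl (Nat.mul_le_mul (Nat.pow_le_pow_right (by norm_num) (Nat.sub_le _ _)) le_rfl)
      _ = _ := by ring
  have h6 : (Fintype.card (Fin m × Fin N) : ℝ) - ((N - (m - 1) * s : ℕ) : ℝ) =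
      ((m * N - (N - (m - 1) * s) : ℕ) : ℝ) := by
    rw [Fintype.card_prod, Fintype.card_fin, Fintype.card_fin, Nat.cast_sub h4]
  rw [h6, Real.rpow_natCast]
  exact_mod_cast h2.trans h5

/-- **The `p`-adic closures of the groups generated by combinations of rational points whose coefficients are near
integers with large common factors with the values of multiplicative functions.** Let `m ≥ 1` and `(m - 1) s < N`. There
are `η > 0` and `ρ < 1` such that for all `F_ij` which are LM, all `b < 1` and `0 ≤ c < 2 b - 1` there is `X₀` such that for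
all `X ≥ X₀`, all simple abelian varieties `A` over `ℚ`, all prime numbers `p`, all commutative subfields `K` of `End⁰(A)`
and all independent `e_1, …, e_N` in `A(ℚ)` with `dim_K (End⁰(A) ⟨e_1, …, e_N⟩) ≤ s`: for all but at most
`X ^ (m N) exp (-(log X)^c)` of the `m × N` matrices `u` of positive integers `≤ X`, for EVERY matrix `w` of integers
`w_ij ≥ exp ((log X)^b)` with `gcd(w_ij, F_ij(u_ij)) ≥ w_i'j'^ρ` for all indices, and all integers `a_ij ≠ 0`, `h_ij` with
`|a_ij|, |h_ij| ≤ w_l ^ η` (for some `l` which does not depend on `ij`) the matrix `(a_ij w_ij + h_ij)` is good: for all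
torsion points `t_i` the closure in `A(ℚ_p)` of the group generated by the points `∑_j (a_ij w_ij + h_ij) e_j + t_i` is
isomorphic to `ℤ_p ^ m` modulo finite torsion. If the `e_j` generate `A(ℚ)` up to a torsion quotient and `N ≥ 1`, then
`(m - 1) s < N` for `1 ≤ m ≤ [K : ℚ]`, `s = dim_K (End⁰(A) ⟨e_1, …, e_N⟩)`. Euler's function and the sum of the divisors
are LM. Matrices of divisors `w_ij ≥ exp ((log X)^b)` of `F_ij(u_ij)` with `w_i'j'^ρ ≤ w_ij` are such matrices `w`. -/
theorem result (m N s : ℕ) (hm : 1 ≤ m) (hs : (m - 1) * s < N) :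
    (∃ η ρ : ℝ, 0 < η ∧ 0 < ρ ∧ ρ < 1 ∧ ∀ F : Fin m × Fin N → ℕ → ℕ, (∀ i, LM (F i)) →
      ∀ b c : ℝ, b < 1 → 0 ≤ c → c < 2 * b - 1 → ∃ X₀ : ℕ, ∀ X : ℕ, X₀ ≤ X →
      ∀ (p : ℕ) [Fact p.Prime] (n : ℕ) (A : SimpleAbelianVariety p n) (K : Subfield A.End), Commutative A K →
      ∀ e : Fin N → A.Pts, Independent A e → spanDim A K e ≤ s →
      ({u : Fin m × Fin N → ℕ | (∀ i, 1 ≤ u i ∧ u i ≤ X) ∧ ¬ ∀ w : Fin m × Fin N → ℕ, CommonI F b ρ X u w →
        ∀ a h : Fin m × Fin N → ℤ, (∃ l, ∀ i, a i ≠ 0 ∧ |(a i : ℝ)| ≤ (w l : ℝ) ^ η ∧ |(h i : ℝ)| ≤ (w l : ℝ) ^ η) →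
        GoodTuple A e (fun i j => a (i, j) * (w (i, j) : ℤ) + h (i, j))}.ncard : ℝ) ≤
        (X : ℝ) ^ (m * N) * Real.exp (-(Real.log X ^ c))) ∧
    (∀ (p : ℕ) [Fact p.Prime] (n : ℕ) (A : SimpleAbelianVariety p n) (K : Subfield A.End) (e : Fin N → A.Pts),
      Independent A e → Generates A e → m ≤ degree A K → 1 ≤ N → (m - 1) * spanDim A K e < N) ∧
    (LM Nat.totient ∧ LM (fun m => ∑ d ∈ m.divisors, d)) ∧
    ∀ (F : Fin m × Fin N → ℕ → ℕ) (b ρ : ℝ) (X : ℕ) (u w : Fin m × Fin N → ℕ),
      (∀ i, Real.exp (Real.log X ^ b) ≤ (w i : ℝ)) → (∀ i, w i ∣ F i (u i)) → (∀ i j, (w j : ℝ) ^ ρ ≤ (w i : ℝ)) →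
      CommonI F b ρ X u w := by
  refine ⟨?_, ?_, ⟨lm_totient, lm_sigma⟩, fun F b ρ X u w h1 h2 h3 => commonI_of_dvd h1 h2 h3⟩
  · have : Nonempty (Fin m × Fin N) := ⟨(⟨0, by omega⟩, ⟨0, by omega⟩)⟩
    have hc : (0 : ℝ) < ((N - (m - 1) * s : ℕ) : ℝ) := by
      have : 0 < N - (m - 1) * s := by omega
      exact_mod_cast this
    obtain ⟨η, ρ, hη, hρ0, hρ1, h⟩ := common_near_I (ι := Fin m × Fin N) hc
    refine ⟨η, ρ, hη, hρ0, hρ1, fun F hF b c hb hc₁ hcb => ?_⟩
    obtain ⟨X₀, hX₀⟩ := h F hF (m * 3 ^ (m * N) : ℕ) b c hb hc₁ hcb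
    refine ⟨X₀, fun X hX p _ n A K hK e he hsp => ?_⟩
    have key := hX₀ X hX {α : Fin m × Fin N → ℤ | ¬ GoodTuple A e (fun i j => α (i, j))}
      (fun T hT => count A K hK hm hs e he hsp T hT)
    simp only [Set.mem_ofPred_eq, not_not] at key
    have hcard : Fintype.card (Fin m × Fin N) = m * N := by
      rw [Fintype.card_prod, Fintype.card_fin, Fintype.card_fin]
    rw [hcard] at key
    exact key
  · intro p _ n A K e he hg hmK hN
    have h1 : N = degree A K * spanDim A K e := dim_of_generates A K e he hg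
    rcases Nat.eq_zero_or_pos (spanDim A K e) with h0 | h0
    · rw [h0, mul_zero]
      omega
    · calc (m - 1) * spanDim A K e < degree A K * spanDim A K e := Nat.mul_lt_mul_of_pos_right (by omega) h0
        _ = N := h1.symm

end Pool.Agent.Results.MP_52423f_nt.CommonFactors
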