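import Pool.Agent.U449.BV.VW
import Pool.Agent.Results.MP_52423f_nt.AlmostAllTuplesH14

/-!
# Closures of subgroups of `A(ℚ)`: matrices of coefficients near the values of polynomials on arbitrary sets

Let `A` be a simple abelian variety over `ℚ`, `K` a commutative subfield of `D = End⁰(A)`, `e_1, …, e_N` independent points of `A(ℚ)` which span a
space of `K`-dimension at most `s` over `D`, and let `(m - 1) s < N` (if the `e_j` generate `A(ℚ)` up to a torsion quotient, then this holds
with `s = dim_K (D ⟨e⟩)` for all `m ≤ [K : ℚ]`). Let `f(x, y)` be ANY polynomial of bounded degree over the field of `ℓ ^ (m N)` elements, `ℓ` a large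
prime, with a monomial which contains both variables, `A'`, `B` ARBITRARY subsets of this field with at least `ℓ ^ δ` elements, where
`(m - 1) (N + s) + m N κ < δ ≤ m N`, and `g`, `h` ARBITRARY functions. For almost all pairs `(a, b)` in `A' × B` ALL `m × N` matrices `k` of
integers with entries at a distance of at most `ℓ ^ κ` from the least residues of the coordinates of `f(a, b) + g(a) + h(b)` are good: for
all torsion points `t_i` the closure in `A(ℚ_p)` of the group generated by the points `∑ k_ij e_j + t_i` is `ℤ_p ^ m` modulo finite
torsion. This is uniform in the prime `p`, the abelian variety, its dimension, the subfield and the points.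

More generally, this holds for all vector functions `F(a, b)` with few coincidences (`RareV`). Since the sets and the functions `g` and `h` are
arbitrary, the values have no arithmetic structure, and a matrix may be taken by very many pairs. So the bound for the number of the
exceptional matrices in a box (starting result `AlmostAllTuplesH14`) does not give the result directly. Proof: the
inequality of Cauchy and Schwarz; for most pairs `a, a'` the difference `F(a, b) - F(a', b)` is small for few `b`
(`Pool.Agent.U449.BV`).
-/

set_option autoImplicit false

namespace Pool.Agent.Results.MP_52423f_nt.MixedPolynomials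

open Module Pool.Agent.E8helper40.PC Pool.Agent.E8helper14.PA
open Pool.Agent.U449.BV (RareV OnProductsW NearMatrix on_matrices_sets coordinates)

/-- A simple abelian variety over `ℚ` with its points over `ℚ_p`, a commutative subfield `K` of `End⁰(A)`, and `N` independent points of
`A(ℚ)` which span a space of `K`-dimension at most `s` over `End⁰(A)`. -/
structure Data (N s : ℕ) where
  /-- the prime -/
  p : ℕ
  /-- it is a prime -/
  prime : Fact p.Prime
  /-- the dimension -/
  n : ℕ
  /-- the abelian variety -/
  A : SimpleAbelianVariety p n
  /-- the subfield -/
  K : Subfield A.End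
  /-- it is commutative -/
  commutative : Commutative A K
  /-- the points -/
  e : Fin N → A.Pts
  /-- they are independent -/
  independent : Independent A e
  /-- the dimension of the space spanned by them -/
  dim_le : spanDim A K e ≤ s

/-- For all torsion points `t_i`, the closure in `A(ℚ_p)` of the group generated by the `m` points `∑_j k i j • e j + t i` is
isomorphic to `ℤ_p ^ m` modulo finite torsion (`GoodTuple`). -/
def Good {m N s : ℕ} (D : Data N s) (k : Fin m → Fin N → ℤ) : Prop :=
  letI := D.prime
  GoodTuple D.A D.e k

/-- **Theorem.** Let `m ≥ 1` and `(m - 1) s < N`, `κ ≥ 0`. The property that ALL matrices `k` near the value (up to `X ^ κ` in all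
entries) are good holds for almost all values of vector functions of two variables with few coincidences, on arbitrary finite sets of at
least `X ^ δ` elements, `(m - 1) (N + s) + m N κ < δ ≤ m N`, uniformly in the prime, the abelian variety and the points. If the points
generate `A(ℚ)` up to a torsion quotient, the condition on `m` is satisfied for all `m ≤ [K : ℚ]`.
The tuples of the least residues modulo a prime of the coordinates (with respect to a basis over the prime field) of
`f(a, b) + g(a) + h(b)` in a finite field are such a function, with `X` the prime, for all polynomials `f` over this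
field with a monomial which contains both variables, arbitrary functions `g` and `h`, and arbitrary finite subsets. -/
theorem result :
    (∀ m N s : ℕ, 1 ≤ m → (m - 1) * s < N → ∀ κ : ℝ, 0 ≤ κ →
      OnProductsW (m * N) ((((m - 1) * N + (m - 1) * s : ℕ) : ℝ) + ((m * N : ℕ) : ℝ) * κ) κ
        (fun D : Data N s => NearMatrix (Good (m := m) D))) ∧
    (∀ (p : ℕ) [Fact p.Prime] (n : ℕ) (A : SimpleAbelianVariety p n) (K : Subfield A.End) (m N : ℕ) (e : Fin N → A.Pts),
      Independent A e → Generates A e → 1 ≤ m → m ≤ degree A K → 1 ≤ N → (m - 1) * spanDim A K e < N) ∧
    ∀ (p : ℕ) [Fact p.Prime] (k : ℕ) (K : Type) [Field K] [Algebra (ZMod p) K] (e : Module.Basis (Fin k) (ZMod p) K)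
      (d : ℕ) (f : MvPolynomial (Fin 2) K), f.totalDegree ≤ d → (∃ m ∈ f.support, m 0 ≠ 0 ∧ m 1 ≠ 0) →
      ∀ (g h : K → K) (A B : Finset K),
        RareV d A B (fun a b i => (((e.repr (MvPolynomial.eval ![a, b] f + g a + h b) i).val : ℕ) : ℝ)) := by
  classical
  refine ⟨fun m N s hm hs κ hκ => ?_, ?_, coordinates⟩
  · refine on_matrices_sets hm hs.le _ hκ (C := m) (Nat.cast_nonneg m) (fun D T hT => ?_)
    letI := D.prime
    have h1 := (AlmostAllTuplesH14.result D.A D.K D.commutative D.e D.independent).2.1 m T
    have h2 : {k : Fin m → Fin N → ℤ | (∀ i j, |k i j| ≤ (T : ℤ)) ∧ ¬ Good D k}.ncard = failures D.A D.e m T := by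
      unfold failures
      rw [← Set.ncard_coe_finset]
      congr 1
      ext k
      simp only [Set.mem_ofPred_eq, Finset.coe_filter, box, Fintype.mem_piFinset, Finset.mem_Icc, abs_le]
      rfl
    rw [h2]
    have h3 : failures D.A D.e m T ≤ m * (2 * T + 1) ^ ((m - 1) * N + (m - 1) * s) := by
      refine h1.trans (Nat.mul_le_mul_left _ (Nat.pow_le_pow_right (by omega) ?_))
      rw [← mul_add]
      exact Nat.mul_le_mul_left _ (Nat.add_le_add_left D.dim_le _)
    exact_mod_cast h3
  · intro p _ n A K m N e he hg hm hmK hN
    have h1 : N = degree A K * spanDim A K e := dim_of_generates A K e he hg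
    rcases Nat.eq_zero_or_pos (spanDim A K e) with h0 | h0
    · rw [h0, mul_zero]
      omega
    · calc (m - 1) * spanDim A K e < degree A K * spanDim A K e := Nat.mul_lt_mul_of_pos_right (by omega) h0
        _ = N := h1.symm

end Pool.Agent.Results.MP_52423f_nt.MixedPolynomials
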