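import Pool.Agent.U979.AV.Fin

set_option autoImplicit false

/-!
# Rigidity of the failures of Q1

Let `A` be a simple abelian variety over `ℚ` of dimension `n` whose endomorphism algebra
`D = End⁰(A)` over `ℚ` is commutative (for instance `A` of `GL_2`-type, or `D = ℚ`), and `p` any prime.
For finitely generated subgroups `L` of `A(ℚ)` it is known that the `ℤ_p`-rank `r` of the closure in
`A(ℚ_p)` is at least `rank L / s`, where `s = dim_D (D L)`.

1. Q1 for subgroups of rank two: if `L₁`, `L₂` of rank two fail (their closures do not have the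
   `ℤ_p`-rank two) and `D L₁ = D L₂`, then `L₂ ⊗ ℚ = a (L₁ ⊗ ℚ)` for an `a ∈ Dˣ`.  So every plane over `D`
   in `A(ℚ) ⊗ ℚ` contains, up to commensurability and multiplication by elements of `Dˣ`, at most
   one failure.
2. The same for subgroups of any rank whose closure has the `ℤ_p`-rank one.
3. If `x, y ∈ A(ℚ)` are independent over `D` and `z = δ y ∈ A(ℚ)` with `δ ∈ D`, `δ ∉ ℚ`, then
   the closure of at least one of the groups `⟨x, y⟩`, `⟨x, z⟩` has the `ℤ_p`-rank two.
4. Suppose that the closure of `L₁` has the `ℤ_p`-rank one.  Then every `L` with `D L = D L₁` and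
   `rank L = r s`, the largest possible value, is of the form `L ⊗ ℚ = X (L₁ ⊗ ℚ)` with a rational
   subspace `X` of `D` of dimension `r`.
5. If `[D : ℚ]` is prime, all extremal failures come from closures of rank one: if `rank L = r s`, `r ≥ 1`
   and `L ⊗ ℚ ≠ D L`, then there is an `L₁` of rank `s` with `D L₁ = D L` whose closure has the `ℤ_p`-rank one.

Proof.  `D` acts on the Lie algebra with common eigenvectors `μ` over the algebraic numbers.  If the
logarithms of a basis `y_j` of `L₁` are `c_j w` then the `c_j` are linearly independent over the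
algebraic numbers (analytic subgroup theorem), and `μ (log (∑ d_j y_j)) = μ(w) ∑ σ_μ(d_j) c_j`.
If `rank L = r s`, then the relations between `r + 1` eigenvectors on the logarithms of `L`
give square matrices over the algebraic numbers with the eigenvector `c`; these are scalar, so that
all `σ_μ` satisfy on the coefficients `d_j` of the elements of `L` the same relations with algebraic
coefficients, and the coefficients lie in a rational space `X` of dimension `r`
(`classify`).  For 5. the function `s r(U) - dim U ≥ 0` is submodular, so that the extremal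
subspaces are closed under sums, intersections and multiplication by `Dˣ`; `D L` is
the direct sum of translates of a minimal one, whose rank therefore divides `[D : ℚ]`.
-/

namespace Pool.Agent.Results.MP_52423f_nt.RigidityOfFailures

open TensorProduct Module Pool.Agent.E8helper40.PC Pool.Agent.U979.AV

variable {p : ℕ} [Fact p.Prime] {n : ℕ} (A : SimpleAbelianVariety p n)

/-- `L₂ ⊗ ℚ = a (L₁ ⊗ ℚ)` for some `a ≠ 0` in `End⁰(A)` -/
def Similar (L₁ L₂ : AddSubgroup A.Pts) : Prop :=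
  ∃ a : A.End, a ≠ 0 ∧ ∀ v, v ∈ ratSpan A L₂ ↔ ∃ u ∈ ratSpan A L₁, v = a • u

/-- Q1 fails for `L`: the closure of `L` in `A(ℚ_p)` does not have the `ℤ_p`-rank `rank L`. -/
def Fails (L : AddSubgroup A.Pts) : Prop := ¬ HasZpRank p (closure A L) (rank A L)

/-- `L` is extremal for `r`: its closure has the `ℤ_p`-rank `r` and `rank L = r dim_D (D L)`. -/
def Extremal (L : AddSubgroup A.Pts) (r : ℕ) : Prop :=
  HasZpRank p (closure A L) r ∧ rank A L = r * finrank A.End (endSpan A L)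

variable {A}

theorem similar_of (hA : ∀ a b : A.End, a * b = b * a) {L₁ L₂ : AddSubgroup A.Pts} (h₁ : L₁.FG)
    (h₂ : L₂.FG) (hr₁ : HasZpRank p (closure A L₁) 1) (hr₂ : HasZpRank p (closure A L₂) 1)
    (h : endSpan A L₁ = endSpan A L₂) : Similar A L₁ L₂ := by
  have hs := pos_of A h₁ one_pos hr₁
  obtain ⟨e1, e2⟩ := ext_of A hA h₁ hr₁ (one_of A hA h₁ hr₁)
  obtain ⟨e3, e4⟩ := ext_of A hA h₂ hr₂ (one_of A hA h₂ hr₂)
  have hs2 := hs
  rw [h] at hs2
  rw [← h] at e3
  have := (fin_ratSpan A h₁).2.2.1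
  obtain ⟨a, ha, hU⟩ := translate (dat A hA) (endSpan A L₁) hs e1 (e2 hs) e3 (e4 hs2)
  refine ⟨a, ha, fun v => ?_⟩
  rw [hU]
  constructor
  · rintro ⟨u, hu, rfl⟩
    exact ⟨u, hu, rfl⟩
  · rintro ⟨u, hu, rfl⟩
    exact ⟨u, hu, rfl⟩

/-- a failure of rank two has a closure of rank one -/
theorem rank_one_of (hA : ∀ a b : A.End, a * b = b * a) {L : AddSubgroup A.Pts} (h : L.FG)
    (hr : rank A L = 2) (hf : Fails A L) : HasZpRank p (closure A L) 1 := by
  obtain ⟨r, hr1, -, hr3, hr4⟩ := main A (⊤ : Subfield A.End) (fun x _ y _ => hA x y) L h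
  rw [hr] at hr3 hr4
  have h2 : r ≠ 2 := by
    rintro rfl
    apply hf
    rw [hr]
    exact hr1
  have h0 : r ≠ 0 := by
    rintro rfl
    omega
  have : r = 1 := by omega
  rwa [this] at hr1

theorem ratSpan_closure (S : Set A.Pts) :
    ratSpan A (AddSubgroup.closure S) =
      Submodule.span ℚ ((fun x : A.Pts => (1 : ℚ) ⊗ₜ[ℤ] x) '' S) := by
  apply le_antisymm
  · unfold ratSpan
    rw [Submodule.span_le]
    rintro _ ⟨x, hx, rfl⟩
    change (1 : ℚ) ⊗ₜ[ℤ] x ∈ _
    induction hx using AddSubgroup.closure_induction with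
    | mem x hx => exact Submodule.subset_span ⟨x, hx, rfl⟩
    | zero =>
      rw [TensorProduct.tmul_zero]
      exact Submodule.zero_mem _
    | add x y _ _ hx hy =>
      rw [TensorProduct.tmul_add]
      exact Submodule.add_mem _ hx hy
    | neg x _ hx =>
      rw [TensorProduct.tmul_neg]
      exact Submodule.neg_mem _ hx
  · exact Submodule.span_mono (Set.image_mono AddSubgroup.subset_closure)

theorem endSpan_closure (S : Set A.Pts) :
    endSpan A (AddSubgroup.closure S) =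
      Submodule.span A.End ((fun x : A.Pts => (1 : ℚ) ⊗ₜ[ℤ] x) '' S) := by
  rw [endSpan_eq, ratSpan_closure]
  apply le_antisymm
  · rw [Submodule.span_le]
    exact fun x hx => Submodule.span_le_restrictScalars ℚ A.End _ hx
  · exact Submodule.span_mono fun x hx => Submodule.subset_span hx

theorem image_pair (x y : A.Pts) :
    (fun x : A.Pts => (1 : ℚ) ⊗ₜ[ℤ] x) '' {x, y} =
      {(1 : ℚ) ⊗ₜ[ℤ] x, (1 : ℚ) ⊗ₜ[ℤ] y} := by
  rw [Set.image_pair]

theorem rank_pair {x y : A.Pts}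
    (hxy : LinearIndependent A.End ![(1 : ℚ) ⊗ₜ[ℤ] x, (1 : ℚ) ⊗ₜ[ℤ] y]) :
    (AddSubgroup.closure {x, y}).FG ∧ rank A (AddSubgroup.closure {x, y}) = 2 := by
  have hfg : (AddSubgroup.closure {x, y}).FG := by
    classical
    exact ⟨{x, y}, by simp⟩
  refine ⟨hfg, ?_⟩
  rw [← (fin_ratSpan A hfg).2.1, ratSpan_closure, image_pair]
  have h1 : LinearIndependent ℚ ![(1 : ℚ) ⊗ₜ[ℤ] x, (1 : ℚ) ⊗ₜ[ℤ] y] :=
    hxy.restrict_scalars (by
      intro a b hab
      have h2 : a • (1 : A.End) = b • (1 : A.End) := hab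
      rw [Rat.smul_one_eq_cast, Rat.smul_one_eq_cast] at h2
      exact Rat.cast_injective h2)
  have h2 := finrank_span_eq_card h1
  rw [Matrix.range_cons, Matrix.range_cons, Matrix.range_empty, Set.union_empty] at h2
  rw [Set.insert_eq]
  rw [h2, Fintype.card_fin]

variable (A) in
/-- the image of a point in `A(ℚ) ⊗ ℚ` -/
noncomputable def pt (x : A.Pts) : ℚ ⊗[ℤ] A.Pts := (1 : ℚ) ⊗ₜ[ℤ] x

variable (A) in
/-- (1) Subgroups of rank two which fail and span the same space over `End⁰(A)` are similar. -/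
def RankTwo : Prop :=
  ∀ L₁ L₂ : AddSubgroup A.Pts, L₁.FG → L₂.FG → rank A L₁ = 2 → rank A L₂ = 2 →
    Fails A L₁ → Fails A L₂ → endSpan A L₁ = endSpan A L₂ → Similar A L₁ L₂

variable (A) in
/-- (2) Subgroups whose closures have the `ℤ_p`-rank one and which span the same space over `End⁰(A)`
are similar. -/
def ClosureRankOne : Prop :=
  ∀ L₁ L₂ : AddSubgroup A.Pts, L₁.FG → L₂.FG → HasZpRank p (closure A L₁) 1 →
    HasZpRank p (closure A L₂) 1 → endSpan A L₁ = endSpan A L₂ → Similar A L₁ L₂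

variable (A) in
/-- (3) If `x`, `y` are independent over `End⁰(A)` and `z = δ y`, `δ` not rational, then the closure of
`⟨x, y⟩` or of `⟨x, z⟩` has the `ℤ_p`-rank two. -/
def TwoGroups : Prop :=
  ∀ (x y z : A.Pts) (δ : A.End), pt A z = δ • pt A y → (∀ q : ℚ, δ ≠ (q : A.End)) →
    LinearIndependent A.End ![pt A x, pt A y] →
    HasZpRank p (closure A (AddSubgroup.closure {x, y})) 2 ∨
      HasZpRank p (closure A (AddSubgroup.closure {x, z})) 2

variable (A) in
/-- (4) The form of the extremal subgroups in the space spanned by a subgroup `L₁` whose closure has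
the `ℤ_p`-rank one. -/
def ExtremalForm : Prop :=
  ∀ (L₁ L : AddSubgroup A.Pts) (r : ℕ), L₁.FG → L.FG → HasZpRank p (closure A L₁) 1 →
    endSpan A L = endSpan A L₁ → Extremal A L r →
    ∃ X : Submodule ℚ A.End, finrank ℚ X = r ∧
      ratSpan A L = Submodule.span ℚ {v | ∃ a ∈ X, ∃ u ∈ ratSpan A L₁, v = a • u}

variable (A) in
/-- (5) If `[End⁰(A) : ℚ]` is prime and there is an extremal subgroup `L`, with `L ⊗ ℚ` not stable under
`End⁰(A)`, then there is one whose closure has the `ℤ_p`-rank one. -/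
def PrimeDegree : Prop :=
  (finrank ℚ A.End).Prime → ∀ (L : AddSubgroup A.Pts) (r : ℕ), L.FG → 1 ≤ r →
    Extremal A L r → (∃ v ∈ endSpan A L, v ∉ ratSpan A L) →
    ∃ L₁ : AddSubgroup A.Pts, L₁.FG ∧ HasZpRank p (closure A L₁) 1 ∧
      endSpan A L₁ = endSpan A L ∧ rank A L₁ = finrank A.End (endSpan A L)

theorem result (hA : ∀ a b : A.End, a * b = b * a) :
    RankTwo A ∧ ClosureRankOne A ∧ TwoGroups A ∧ ExtremalForm A ∧ PrimeDegree A := by
  have hD := dat A hA
  refine ⟨?_, ?_, ?_, ?_, ?_⟩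
  · intro L₁ L₂ h₁ h₂ hr₁ hr₂ hf₁ hf₂ h
    exact similar_of hA h₁ h₂ (rank_one_of hA h₁ hr₁ hf₁) (rank_one_of hA h₂ hr₂ hf₂) h
  · intro L₁ L₂ h₁ h₂ hr₁ hr₂ h
    exact similar_of hA h₁ h₂ hr₁ hr₂ h
  · intro x y z δ hz hδ hxy
    change (1 : ℚ) ⊗ₜ[ℤ] z = δ • ((1 : ℚ) ⊗ₜ[ℤ] y) at hz
    change LinearIndependent A.End ![(1 : ℚ) ⊗ₜ[ℤ] x, (1 : ℚ) ⊗ₜ[ℤ] y] at hxy
    by_contra hcon
    rw [not_or] at hcon
    obtain ⟨hc1, hc2⟩ := hcon
    have hδ0 : δ ≠ 0 := by
      intro h0
      exact hδ 0 (by rw [h0, Rat.cast_zero])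
    have hxy' := LinearIndependent.pair_iff.1 hxy
    have hxz : LinearIndependent A.End ![(1 : ℚ) ⊗ₜ[ℤ] x, (1 : ℚ) ⊗ₜ[ℤ] z] := by
      rw [LinearIndependent.pair_iff]
      intro s t hst
      rw [hz, smul_smul] at hst
      obtain ⟨h1, h2⟩ := hxy' _ _ hst
      exact ⟨h1, (mul_eq_zero.1 h2).resolve_right hδ0⟩
    obtain ⟨f1, r1⟩ := rank_pair hxy
    obtain ⟨f2, r2⟩ := rank_pair hxz
    have hF1 : Fails A (AddSubgroup.closure {x, y}) := by
      unfold Fails
      rw [r1]
      exact hc1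
    have hF2 : Fails A (AddSubgroup.closure {x, z}) := by
      unfold Fails
      rw [r2]
      exact hc2
    have hspan : endSpan A (AddSubgroup.closure {x, y}) =
        endSpan A (AddSubgroup.closure {x, z}) := by
      rw [endSpan_closure, endSpan_closure, image_pair, image_pair, hz]
      apply le_antisymm
      · rw [Submodule.span_le]
        rintro v (rfl | rfl)
        · exact Submodule.subset_span (Or.inl rfl)
        · have h1 : δ⁻¹ • (δ • ((1 : ℚ) ⊗ₜ[ℤ] y)) ∈ Submodule.span A.End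
              ({(1 : ℚ) ⊗ₜ[ℤ] x, δ • ((1 : ℚ) ⊗ₜ[ℤ] y)} : Set (ℚ ⊗[ℤ] A.Pts)) :=
            Submodule.smul_mem _ _ (Submodule.subset_span (Or.inr rfl))
          rw [smul_smul, inv_mul_cancel₀ hδ0, one_smul] at h1
          exact h1
      · rw [Submodule.span_le]
        rintro v (rfl | rfl)
        · exact Submodule.subset_span (Or.inl rfl)
        · exact Submodule.smul_mem _ _ (Submodule.subset_span (Or.inr rfl))
    obtain ⟨a, ha, hsim⟩ := similar_of hA f1 f2 (rank_one_of hA f1 r1 hF1)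
      (rank_one_of hA f2 r2 hF2) hspan
    have hmem : ∀ v, v ∈ ratSpan A (AddSubgroup.closure {x, y}) →
        ∃ q q' : ℚ, v = q • ((1 : ℚ) ⊗ₜ[ℤ] x) + q' • ((1 : ℚ) ⊗ₜ[ℤ] y) := by
      intro v hv
      rw [ratSpan_closure, image_pair] at hv
      obtain ⟨q, q', h1⟩ := Submodule.mem_span_pair.1 hv
      exact ⟨q, q', h1.symm⟩
    have hx : (1 : ℚ) ⊗ₜ[ℤ] x ∈ ratSpan A (AddSubgroup.closure {x, z}) := by
      rw [ratSpan_closure, image_pair]
      exact Submodule.subset_span (Or.inl rfl)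
    have hz' : (1 : ℚ) ⊗ₜ[ℤ] z ∈ ratSpan A (AddSubgroup.closure {x, z}) := by
      rw [ratSpan_closure, image_pair]
      exact Submodule.subset_span (Or.inr rfl)
    obtain ⟨u, hu, hux⟩ := (hsim _).1 hx
    obtain ⟨v, hv, hvz⟩ := (hsim _).1 hz'
    obtain ⟨q₁, q₂, rfl⟩ := hmem u hu
    obtain ⟨q₃, q₄, rfl⟩ := hmem v hv
    have hcast : ∀ (q : ℚ) (w : ℚ ⊗[ℤ] A.Pts), q • w = (q : A.End) • w := fun q w =>
      (Rat.cast_smul_eq_qsmul A.End q w).symm
    rw [smul_add, hcast, hcast, smul_smul, smul_smul] at hux hvz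
    have e1 : (a * q₁ - 1) • ((1 : ℚ) ⊗ₜ[ℤ] x) + (a * q₂) • ((1 : ℚ) ⊗ₜ[ℤ] y) = 0 := by
      rw [sub_smul, one_smul]
      nth_rewrite 2 [hux]
      abel
    have e2 : (a * q₃) • ((1 : ℚ) ⊗ₜ[ℤ] x) + (a * q₄ - δ) • ((1 : ℚ) ⊗ₜ[ℤ] y) = 0 := by
      rw [sub_smul, ← hz, hvz]
      abel
    obtain ⟨e3, -⟩ := hxy' _ _ e1
    obtain ⟨-, e4⟩ := hxy' _ _ e2
    have e5 : a * q₁ = 1 := sub_eq_zero.1 e3
    have e6 : a * q₄ = δ := sub_eq_zero.1 e4
    have hq₁ : (q₁ : A.End) ≠ 0 := right_ne_zero_of_mul_eq_one e5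
    have e7 : a = ((q₁⁻¹ : ℚ) : A.End) := by
      rw [Rat.cast_inv]
      exact eq_inv_of_mul_eq_one_left e5
    apply hδ (q₁⁻¹ * q₄)
    rw [← e6, e7, Rat.cast_mul]
  · rintro L₁ L r h₁ h hr₁ hspan ⟨hr, hrank⟩
    have hs := pos_of A h₁ one_pos hr₁
    obtain ⟨e1, e2⟩ := ext_of A hA h₁ hr₁ (one_of A hA h₁ hr₁)
    obtain ⟨e3, e4⟩ := ext_of A hA h hr hrank
    rw [hspan] at e3 e4
    have := (fin_ratSpan A h₁).2.2.1
    obtain ⟨X, hX, hU⟩ := main_class hD (endSpan A L₁) hs e1 (e2 hs) e3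
    refine ⟨X, ?_, hU⟩
    rw [hX, e4 hs]
  · rintro hp L r h hr1 ⟨hr, hrank⟩ hne
    have hs := pos_of A h hr1 hr
    obtain ⟨e1, e2⟩ := ext_of A hA h hr hrank
    have := (fin_ratSpan A h).2.2.1
    have h0 : ratSpan A L ≠ ⊥ := by
      intro h0
      have h3 := (fin_ratSpan A h).2.1
      rw [h0, finrank_bot, hrank] at h3
      have h4 : 0 < r * finrank A.End (endSpan A L) := Nat.mul_pos hr1 hs
      omega
    obtain ⟨U₁, hU₁, hrk⟩ := prime_case hD (endSpan A L) hp e1 h0 hne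
    have := hU₁.fin
    obtain ⟨L₁, hL₁, hL₁U⟩ := exists_group A U₁
    obtain ⟨y, w, c, hy, hcw, hyV, hyU⟩ := basis_of hD (endSpan A L) hU₁ hrk
    refine ⟨L₁, hL₁, closure_one A (by rw [hL₁U]; exact hrk), ?_, ?_⟩
    · refine Eq.trans ?_ hyV
      rw [endSpan_eq, hL₁U, hyU]
      apply le_antisymm
      · rw [Submodule.span_le]
        exact fun x hx => Submodule.span_le_restrictScalars ℚ A.End _ hx
      · exact Submodule.span_mono fun x hx => Submodule.subset_span hx
    · rw [← (fin_ratSpan A hL₁).2.1, hL₁U, hU₁.eq, hrk, one_mul]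

end Pool.Agent.Results.MP_52423f_nt.RigidityOfFailures
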